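import Pool.Agent.P8H67.IU.Stm

set_option autoImplicit false

namespace Pool.Agent.P8H74.IU

open Polynomial Finset Pool.Agent.P8H67.IU

universe u

theorem exists_enum {L : Type u} (s : Multiset L) (q : ℕ) (h : s.card = q) :
    ∃ e : Fin q → L, s = (Finset.univ : Finset (Fin q)).val.map e := by
  subst h
  refine ⟨fun i => s.toList.get (i.cast (by simp)), ?_⟩
  have h1 : s = (s.toList : Multiset L) := (Multiset.coe_toList s).symm
  have h2 : s.toList = List.ofFn (fun i : Fin s.card => s.toList.get (i.cast (by simp))) := by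
    apply List.ext_get
    · simp
    · intro n h1 h2
      simp
  conv_lhs => rw [h1, h2]
  simp [List.ofFn_eq_map]

theorem sum_elim_form {Y W : Type*} [Fintype Y] [Fintype W] (K : Y ⊕ W → Y ⊕ W → ℝ)
    (hK : ∀ a b, K a b = K b a) (a b : ℝ) :
    ∑ i, ∑ j, (Sum.elim (fun _ : Y => a) (fun _ : W => b) i) *
      (Sum.elim (fun _ : Y => a) (fun _ : W => b) j) * K i j =
    a ^ 2 * ∑ x, ∑ y, K (Sum.inl x) (Sum.inl y) + 2 * (a * b) * ∑ x, ∑ w, K (Sum.inl x) (Sum.inr w)
      + b ^ 2 * ∑ v, ∑ w, K (Sum.inr v) (Sum.inr w) := by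
  simp only [Fintype.sum_sum_type, Sum.elim_inl, Sum.elim_inr, Finset.sum_add_distrib]
  have h1 : ∑ v : W, ∑ x : Y, b * a * K (Sum.inr v) (Sum.inl x) =
      ∑ x : Y, ∑ v : W, a * b * K (Sum.inl x) (Sum.inr v) := by
    rw [Finset.sum_comm]
    refine Finset.sum_congr rfl fun x _ => Finset.sum_congr rfl fun v _ => ?_
    rw [hK]; ring
  rw [h1]
  simp_rw [← Finset.mul_sum]
  ring

section
variable {L : Type u} [NormedField L] [IsUltrametricDist L] [IsAlgClosed L]

omit [IsUltrametricDist L] in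
/-- roots of `F - F y`, enumerated -/
theorem exists_roots (F : L[X]) (q : ℕ) (hF : F.Monic) (hq : F.natDegree = q) (h1 : 1 ≤ q) (b : L) :
    ∃ e : Fin q → L, (F - C b).roots = (Finset.univ : Finset (Fin q)).val.map e ∧
      (∀ z, F.eval z - b = ∏ i, (z - e i)) := by
  have hm : (F - C b).Monic := by
    apply hF.sub_of_left
    rw [degree_eq_natDegree hF.ne_zero, hq]
    exact lt_of_le_of_lt degree_C_le (by exact_mod_cast h1)
  have hd : (F - C b).natDegree = q := by rw [natDegree_sub_C, hq]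
  have hs := IsAlgClosed.splits (F - C b)
  obtain ⟨e, he⟩ := exists_enum (F - C b).roots q (by rw [← hs.natDegree_eq_card_roots, hd])
  refine ⟨e, he, fun z => ?_⟩
  have h2 := hs.eval_eq_prod_roots_of_monic hm z
  rw [he] at h2
  rw [eval_sub, eval_C, Multiset.map_map] at h2
  rw [h2]
  rfl

theorem en : S_POS.{u} → S_GNM.{u} → S_EN.{u} := by
  intro hPOS hGNM L _ _ _ F q d hF hq h1 x₀ R hR Y hinj hYR hFYR hroots c x₁ x₂ γ hx1 hx12 hx2 hγ hcond
  classical
  rcases Y.eq_empty_or_nonempty with hY | hYne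
  · subst hY
    simp [En, Er]
  have hn : (0 : ℝ) < Y.card := by exact_mod_cast hYne.card_pos
  have hqpos : (0 : ℝ) < q := by exact_mod_cast h1
  set n : ℝ := (Y.card : ℝ) with hndef
  have hRpos : 0 < R := by linarith
  set r : ℝ := Real.log R with hr
  have hr0 : 0 ≤ r := Real.log_nonneg hR
  have hexpr : Real.exp r = R := Real.exp_log hRpos
  set s₀ : ℝ := -((q - 1 + d) * r) with hs0
  have hq1 : (0 : ℝ) ≤ q - 1 := by
    have : (1 : ℝ) ≤ q := by exact_mod_cast h1
    linarith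
  have hs0neg : s₀ ≤ 0 := by
    have : 0 ≤ ((q : ℝ) - 1 + d) * r := mul_nonneg (add_nonneg hq1 (Nat.cast_nonneg d)) hr0
    linarith
  choose e he hprod using fun b : L => exists_roots F q hF hq h1 b
  have hFe : ∀ y i, F.eval (e (F.eval y) i) = F.eval y := by
    intro y i
    have := hprod (F.eval y) (e (F.eval y) i)
    rw [Finset.prod_eq_zero (Finset.mem_univ i) (sub_self _)] at this
    exact sub_eq_zero.mp this
  have heR : ∀ y ∈ Y, ∀ i, ‖e (F.eval y) i - x₀‖ ≤ R := fun y hy i => hroots y hy _ (hFe y i)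
  -- ultrametric inequality in the disc
  have hdisc : ∀ a b : L, ‖a - x₀‖ ≤ R → ‖b - x₀‖ ≤ R → ‖a - b‖ ≤ R := by
    intro a b ha hb
    have : a - b = (a - x₀) + (x₀ - b) := by ring
    rw [this]
    refine (IsUltrametricDist.norm_add_le_max _ _).trans (max_le ha ?_)
    rwa [norm_sub_rev]
  set K : L → L → ℝ := fun a b => Real.log (max (Real.exp s₀) ‖a - b‖) with hK
  have hKsym : ∀ a b, K a b = K b a := fun a b => by simp only [hK]; rw [norm_sub_rev]
  have hKs0 : ∀ a b, s₀ ≤ K a b := by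
    intro a b
    simp only [hK]
    rw [Real.le_log_iff_exp_le (lt_max_of_lt_left (Real.exp_pos _))]
    exact le_max_left _ _
  have hKld : ∀ a b, a ≠ b → Real.log ‖a - b‖ ≤ K a b := by
    intro a b hab
    exact Real.log_le_log (norm_pos_iff.mpr (sub_ne_zero.mpr hab)) (le_max_right _ _)
  -- the three sums
  have hB1 : ∀ x ∈ Y, ∀ y ∈ Y, ld x y + (if x = y then s₀ else 0) ≤ K x y := by
    intro x _ y _
    by_cases h : x = y
    · subst h
      simpa [ld] using hKs0 x x
    · rw [if_neg h, add_zero]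
      exact hKld x y h
  have hB2 : ∀ x ∈ Y, ∀ y ∈ Y, ∑ i, K x (e (F.eval y) i) ≤
      ld (F.eval x) (F.eval y) + er ld d r (F.eval x) (F.eval y) := by
    intro x hx y hy
    have hGN : ∀ b, Real.log (GN (F - C b) x (Real.exp s₀)) = ∑ i, K x (e b i) := by
      intro b
      unfold GN
      rw [he b, Multiset.map_map]
      change Real.log (∏ i, max (Real.exp s₀) ‖x - e b i‖) = _
      rw [Real.log_prod (fun i _ => (lt_max_of_lt_left (Real.exp_pos _)).ne')]
    have hgp : ∀ b, 0 < GN (F - C b) x (Real.exp s₀) := by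
      intro b
      unfold GN
      rw [he b, Multiset.map_map]
      change 0 < ∏ i, max (Real.exp s₀) ‖x - e b i‖
      exact Finset.prod_pos fun i _ => lt_max_of_lt_left (Real.exp_pos _)
    have h3 := (hGNM L F hF (by omega) (F.eval y) x (Real.exp s₀) (Real.exp_pos _)).1
    rw [← hGN, h3]
    have hGle : Real.log (GN (F - C (F.eval x)) x (Real.exp s₀)) ≤ -(d * r) := by
      obtain ⟨i₀, hi₀⟩ : ∃ i, x = e (F.eval x) i := by
        have h4 := hprod (F.eval x) x
        rw [sub_self] at h4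
        obtain ⟨i, _, hi⟩ := Finset.prod_eq_zero_iff.mp h4.symm
        exact ⟨i, sub_eq_zero.mp hi⟩
      rw [hGN, ← Finset.add_sum_erase _ _ (Finset.mem_univ i₀)]
      have h5 : K x (e (F.eval x) i₀) = s₀ := by
        rw [← hi₀]
        simp only [hK]
        rw [sub_self, norm_zero, max_eq_left (Real.exp_pos _).le, Real.log_exp]
      have h6 : ∑ i ∈ univ.erase i₀, K x (e (F.eval x) i) ≤ ∑ i ∈ univ.erase i₀, r := by
        refine Finset.sum_le_sum fun i _ => ?_
        simp only [hK]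
        rw [Real.log_le_iff_le_exp (lt_max_of_lt_left (Real.exp_pos _)), hexpr]
        refine max_le ?_ (hdisc _ _ (hYR x hx) (heR x hx i))
        exact (Real.exp_le_one_iff.mpr hs0neg).trans hR
      rw [Finset.sum_const, Finset.card_erase_of_mem (Finset.mem_univ _), Finset.card_univ,
        Fintype.card_fin, nsmul_eq_mul, Nat.cast_sub h1, Nat.cast_one] at h6
      rw [h5]
      calc s₀ + _ ≤ s₀ + (q - 1) * r := by linarith
        _ = -(d * r) := by rw [hs0]; ring
    by_cases hxy : x = y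
    · subst hxy
      rw [sub_self, norm_zero, max_eq_left (hgp _).le]
      have h7 : ld (F.eval x) (F.eval x) = 0 := by simp [ld]
      have h8 : 0 ≤ er ld d r (F.eval x) (F.eval x) := le_max_left _ _
      have h9 : 0 ≤ (d : ℝ) * r := mul_nonneg (Nat.cast_nonneg d) hr0
      linarith
    · have hne : F.eval y - F.eval x ≠ 0 := sub_ne_zero.mpr fun h => hxy (hinj hy hx h).symm
      have h10 : ld (F.eval x) (F.eval y) = Real.log ‖F.eval y - F.eval x‖ := by
        unfold ld; rw [norm_sub_rev]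
      have h11 : -(d * r) - ld (F.eval x) (F.eval y) ≤ er ld d r (F.eval x) (F.eval y) :=
        le_max_right _ _
      have h12 : 0 ≤ er ld d r (F.eval x) (F.eval y) := le_max_left _ _
      rcases le_total (GN (F - C (F.eval x)) x (Real.exp s₀)) ‖F.eval y - F.eval x‖ with h | h
      · rw [max_eq_right h, ← h10]
        linarith
      · rw [max_eq_left h]
        linarith
  have hB3 : ∀ x ∈ Y, ∀ y ∈ Y, q * ld (F.eval x) (F.eval y) + (if x = y then (q : ℝ) ^ 2 * s₀ else 0)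
      ≤ ∑ i, ∑ j, K (e (F.eval x) i) (e (F.eval y) j) := by
    intro x hx y hy
    by_cases hxy : x = y
    · subst hxy
      rw [if_pos rfl]
      have h7 : ld (F.eval x) (F.eval x) = 0 := by simp [ld]
      rw [h7, mul_zero, zero_add]
      calc (q : ℝ) ^ 2 * s₀ = ∑ i : Fin q, ∑ j : Fin q, s₀ := by simp; ring
        _ ≤ _ := Finset.sum_le_sum fun i _ => Finset.sum_le_sum fun j _ => hKs0 _ _
    · rw [if_neg hxy, add_zero]
      have hne : F.eval x ≠ F.eval y := fun h => hxy (hinj hx hy h)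
      calc (q : ℝ) * ld (F.eval x) (F.eval y) = ∑ i : Fin q, ld (F.eval x) (F.eval y) := by simp
        _ ≤ _ := ?_
      refine Finset.sum_le_sum fun i _ => ?_
      have h4 := hprod (F.eval y) (e (F.eval x) i)
      rw [hFe] at h4
      have h5 : ∀ j, e (F.eval x) i - e (F.eval y) j ≠ 0 := by
        intro j h
        apply hne
        rw [← hFe x i, sub_eq_zero.mp h, hFe]
      unfold ld
      rw [h4, norm_prod, Real.log_prod (fun j _ => (norm_pos_iff.mpr (h5 j)).ne')]
      exact Finset.sum_le_sum fun j _ => hKld _ _ (sub_ne_zero.mp (h5 j))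
  -- the points
  let xs : (Y ⊕ (Y × Fin q)) → L := Sum.elim (fun y => (y : L)) (fun w => e (F.eval (w.1 : L)) w.2)
  let τ : (Y ⊕ (Y × Fin q)) → ℝ := Sum.elim (fun _ => 1 / n) (fun _ => -(1 / (q * n)))
  have hcardY : ((Fintype.card Y : ℕ) : ℝ) = n := by simp [hndef]
  have hτ : ∑ i, τ i = 0 := by
    simp only [τ, Fintype.sum_sum_type, Sum.elim_inl, Sum.elim_inr, Finset.sum_const,
      Finset.card_univ, Fintype.card_prod, Fintype.card_fin, nsmul_eq_mul, Nat.cast_mul, hcardY]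
    field_simp
    ring
  have hxs : ∀ i, ‖xs i - x₀‖ ≤ R := by
    rintro (y | w)
    · exact hYR _ y.2
    · exact heR _ w.1.2 _
  have hcount : ∀ s, (∑ i, if ‖c - xs i‖ ≤ Real.exp s then τ i else 0) =
      (((Y.filter fun y => ‖c - y‖ ≤ Real.exp s).card : ℝ) / Y.card) -
        (∑ y ∈ Y, (cnt (F - C (F.eval y)) c (Real.exp s) : ℝ)) / (q * Y.card) := by
    intro s
    have h2 : ∑ y : Y, (if ‖c - (y : L)‖ ≤ Real.exp s then 1 / n else 0) =
        ((Y.filter fun y => ‖c - y‖ ≤ Real.exp s).card : ℝ) / Y.card := by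
      rw [Finset.sum_coe_sort Y (fun y => if ‖c - y‖ ≤ Real.exp s then 1 / n else 0),
        ← Finset.sum_filter, Finset.sum_const, nsmul_eq_mul]
      ring
    have h3 : ∑ w : Y × Fin q, (if ‖c - e (F.eval (w.1 : L)) w.2‖ ≤ Real.exp s then
        -(1 / (q * n)) else 0) =
        -((∑ y ∈ Y, (cnt (F - C (F.eval y)) c (Real.exp s) : ℝ)) / (q * Y.card)) := by
      rw [Fintype.sum_prod_type, Finset.sum_coe_sort Y (fun y => ∑ j : Fin q,
        if ‖c - e (F.eval y) j‖ ≤ Real.exp s then -(1 / (q * n)) else 0), Finset.sum_div,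
        ← Finset.sum_neg_distrib]
      refine Finset.sum_congr rfl fun y _ => ?_
      have h4 : cnt (F - C (F.eval y)) c (Real.exp s) =
          (univ.filter fun j : Fin q => ‖c - e (F.eval y) j‖ ≤ Real.exp s).card := by
        unfold cnt
        rw [he, Multiset.filter_map, Multiset.card_map]
        rfl
      rw [h4, ← Finset.sum_filter, Finset.sum_const, nsmul_eq_mul]
      ring
    have h5 := congrArg₂ (fun a b : ℝ => a + b) h2 h3
    refine Eq.trans ?_ (h5.trans (by ring))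
    rw [Fintype.sum_sum_type]
    rfl
  have hmain := hPOS L (Y ⊕ (Y × Fin q)) xs τ c s₀ x₁ x₂ r γ hτ hx1 hx12 hx2
    (fun i j => by rw [hexpr]; exact hdisc _ _ (hxs i) (hxs j)) hγ
    (fun s h1 h2 => by rw [hcount]; exact hcond s h1 h2)
  have hform := sum_elim_form (Y := Y) (W := Y × Fin q) (fun i j => K (xs i) (xs j))
    (fun a b => hKsym _ _) (1 / n) (-(1 / (q * n)))
  have h13 : ∑ i, ∑ j, τ i * τ j * Real.log (max (Real.exp s₀) ‖xs i - xs j‖) =
      (1 / n) ^ 2 * ∑ x : Y, ∑ y : Y, K x y +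
      2 * ((1 / n) * (-(1 / (q * n)))) * ∑ x : Y, ∑ w : Y × Fin q, K x (e (F.eval (w.1 : L)) w.2) +
      (-(1 / (q * n))) ^ 2 * ∑ v : Y × Fin q, ∑ w : Y × Fin q,
        K (e (F.eval (v.1 : L)) v.2) (e (F.eval (w.1 : L)) w.2) := hform
  rw [h13] at hmain
  have hA1 : En ld Y + n * s₀ ≤ ∑ x : Y, ∑ y : Y, K x y := by
    have h2 : ∑ x : Y, ∑ y : Y, K x y = ∑ x ∈ Y, ∑ y ∈ Y, K x y := by
      rw [← Finset.sum_coe_sort Y (fun x => ∑ y ∈ Y, K x y)]
      refine Finset.sum_congr rfl fun x _ => ?_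
      rw [← Finset.sum_coe_sort Y (fun y => K x y)]
    rw [h2]
    calc En ld Y + n * s₀ = ∑ x ∈ Y, ∑ y ∈ Y, (ld x y + (if x = y then s₀ else 0)) := by
          unfold En
          simp_rw [Finset.sum_add_distrib]
          congr 1
          rw [Finset.sum_congr rfl fun x hx => Finset.sum_ite_eq Y x (fun _ => s₀)]
          rw [Finset.sum_congr rfl fun x hx => if_pos hx]
          simp [hndef]
      _ ≤ _ := Finset.sum_le_sum fun x hx => Finset.sum_le_sum fun y hy => hB1 x hx y hy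
  have hA2 : ∑ x : Y, ∑ w : Y × Fin q, K x (e (F.eval (w.1 : L)) w.2) ≤
      (∑ x ∈ Y, ∑ y ∈ Y, ld (F.eval x) (F.eval y)) + Er ld d r (fun y => F.eval y) Y := by
    have h2 : ∑ x : Y, ∑ w : Y × Fin q, K x (e (F.eval (w.1 : L)) w.2) =
        ∑ x ∈ Y, ∑ y ∈ Y, ∑ j, K x (e (F.eval y) j) := by
      rw [← Finset.sum_coe_sort Y (fun x => ∑ y ∈ Y, ∑ j, K x (e (F.eval y) j))]
      refine Finset.sum_congr rfl fun x _ => ?_
      rw [← Finset.sum_coe_sort Y (fun y => ∑ j, K x (e (F.eval y) j)), Fintype.sum_prod_type]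
    rw [h2]
    unfold Er
    rw [← Finset.sum_add_distrib]
    refine Finset.sum_le_sum fun x hx => ?_
    rw [← Finset.sum_add_distrib]
    exact Finset.sum_le_sum fun y hy => hB2 x hx y hy
  have hA3 : q * (∑ x ∈ Y, ∑ y ∈ Y, ld (F.eval x) (F.eval y)) + n * (q ^ 2 * s₀) ≤
      ∑ v : Y × Fin q, ∑ w : Y × Fin q, K (e (F.eval (v.1 : L)) v.2) (e (F.eval (w.1 : L)) w.2) := by
    have h2 : ∑ v : Y × Fin q, ∑ w : Y × Fin q,
        K (e (F.eval (v.1 : L)) v.2) (e (F.eval (w.1 : L)) w.2) =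
        ∑ x ∈ Y, ∑ y ∈ Y, ∑ i, ∑ j, K (e (F.eval x) i) (e (F.eval y) j) := by
      rw [← Finset.sum_coe_sort Y (fun x => ∑ y ∈ Y, ∑ i, ∑ j, K (e (F.eval x) i) (e (F.eval y) j)),
        Fintype.sum_prod_type]
      refine Finset.sum_congr rfl fun x _ => ?_
      rw [← Finset.sum_coe_sort Y (fun y => ∑ i, ∑ j, K (e (F.eval x) i) (e (F.eval y) j)),
        Finset.sum_comm]
      rw [Fintype.sum_prod_type]
      refine Finset.sum_congr rfl fun y _ => ?_
      rw [Finset.sum_comm]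
    rw [h2]
    calc q * (∑ x ∈ Y, ∑ y ∈ Y, ld (F.eval x) (F.eval y)) + n * (q ^ 2 * s₀) =
        ∑ x ∈ Y, ∑ y ∈ Y, (q * ld (F.eval x) (F.eval y) +
          (if x = y then (q : ℝ) ^ 2 * s₀ else 0)) := by
          simp_rw [Finset.sum_add_distrib, ← Finset.mul_sum]
          congr 1
          rw [Finset.sum_congr rfl fun x hx => Finset.sum_ite_eq Y x (fun _ => (q : ℝ) ^ 2 * s₀)]
          rw [Finset.sum_congr rfl fun x hx => if_pos hx]
          simp [hndef]
      _ ≤ _ := Finset.sum_le_sum fun x hx => Finset.sum_le_sum fun y hy => hB3 x hx y hy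
  set A1 := ∑ x : Y, ∑ y : Y, K x y
  set A2 := ∑ x : Y, ∑ w : Y × Fin q, K x (e (F.eval (w.1 : L)) w.2)
  set A3 := ∑ v : Y × Fin q, ∑ w : Y × Fin q,
    K (e (F.eval (v.1 : L)) v.2) (e (F.eval (w.1 : L)) w.2)
  set E := ∑ x ∈ Y, ∑ y ∈ Y, ld (F.eval x) (F.eval y)
  set D := Er ld d r (fun y => F.eval y) Y
  have h14 : γ ^ 2 * (x₂ - x₁) * n ^ 2 ≤ -A1 + 2 / q * A2 - 1 / q ^ 2 * A3 := by
    have h15 : n ^ 2 * ((1 / n) ^ 2 * A1 + 2 * ((1 / n) * (-(1 / (q * n)))) * A2 +
        (-(1 / (q * n))) ^ 2 * A3) = A1 - 2 / q * A2 + 1 / q ^ 2 * A3 := by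
      field_simp
      ring
    have h16 := mul_le_mul_of_nonneg_left hmain (sq_nonneg n)
    rw [h15] at h16
    have h22 : n ^ 2 * (-(γ ^ 2 * (x₂ - x₁))) = -(γ ^ 2 * (x₂ - x₁) * n ^ 2) := by ring
    rw [h22] at h16
    linarith only [h16]
  have h17 : 2 / q * A2 ≤ 2 / q * (E + D) := mul_le_mul_of_nonneg_left hA2 (by positivity)
  have h18 : 1 / (q : ℝ) ^ 2 * (q * E + n * (q ^ 2 * s₀)) ≤ 1 / (q : ℝ) ^ 2 * A3 :=
    mul_le_mul_of_nonneg_left hA3 (by positivity)
  have h19 : 1 / (q : ℝ) ^ 2 * (q * E + n * (q ^ 2 * s₀)) = E / q + n * s₀ := by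
    field_simp
  have h20 : 2 / (q : ℝ) * (E + D) = 2 * (E / q) + 2 / q * D := by ring
  have h21 : -(2 * n * s₀) ≤ 2 * (q + d) * r * n := by
    rw [hs0]
    have h23 := mul_nonneg hn.le hr0
    have h24 : 2 * (q + d) * r * n - -(2 * n * -((q - 1 + d) * r)) = 2 * (n * r) := by ring
    linarith only [h23, h24]
  rw [h20] at h17
  rw [h19] at h18
  linarith only [h14, h17, h18, h21, hA1]

end

end Pool.Agent.P8H74.IU
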