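import Pool.Agent.P8H67.IU.Stm

set_option autoImplicit false

namespace Pool.Agent.P8H74.IU

open Polynomial Finset Pool.Agent.P8H67.IU MeasureTheory

universe u

theorem sum_fib {ι κ : Type*} [Fintype ι] [DecidableEq κ] (f : ι → κ) (τ : ι → ℝ) :
    ∑ i, ∑ j, (if f i = f j then τ i * τ j else 0) =
      ∑ k ∈ univ.image f, (∑ i, if f i = k then τ i else 0) ^ 2 := by
  have h1 : ∀ i j, (if f i = f j then τ i * τ j else 0) =
      ∑ k ∈ univ.image f, (if f i = k then τ i else 0) * (if f j = k then τ j else 0) := by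
    intro i j
    rw [Finset.sum_eq_single (f i)]
    · by_cases h : f i = f j
      · simp [h]
      · rw [if_neg h, if_neg (show ¬ f j = f i from fun h' => h h'.symm), mul_zero]
    · intro k _ hk
      rw [if_neg (fun h => hk h.symm), zero_mul]
    · intro h
      exact absurd (Finset.mem_image_of_mem f (Finset.mem_univ i)) h
  simp_rw [h1, sq, Finset.sum_mul_sum]
  rw [Finset.sum_comm]
  calc _ = ∑ j, ∑ k ∈ univ.image f, ∑ i, (if f i = k then τ i else 0) * (if f j = k then τ j else 0) := by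
        refine Finset.sum_congr rfl fun j _ => ?_
        rw [Finset.sum_comm]
    _ = ∑ k ∈ univ.image f, ∑ j, ∑ i, (if f i = k then τ i else 0) * (if f j = k then τ j else 0) := by
        rw [Finset.sum_comm]
    _ = _ := by
        refine Finset.sum_congr rfl fun k _ => ?_
        rw [Finset.sum_comm]

section
variable {L : Type u} [NormedField L] [IsUltrametricDist L]

/-- the quadratic form at the scale `ρ` dominates the square of the mass of a disc -/
theorem form_ge {ι : Type u} [Fintype ι] (x : ι → L) (τ : ι → ℝ) (c : L) (ρ : ℝ) (hρ : 0 ≤ ρ) :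
    (∑ i, if ‖c - x i‖ ≤ ρ then τ i else 0) ^ 2 ≤
      ∑ i, ∑ j, τ i * τ j * (if ‖x i - x j‖ ≤ ρ then 1 else 0) := by
  classical
  let f : ι → Finset ι := fun i => univ.filter fun j => ‖x i - x j‖ ≤ ρ
  have tri : ∀ a b e : L, ‖a - b‖ ≤ ρ → ‖b - e‖ ≤ ρ → ‖a - e‖ ≤ ρ := by
    intro a b e h1 h2
    have : a - e = (a - b) + (b - e) := by ring
    rw [this]
    exact (IsUltrametricDist.norm_add_le_max _ _).trans (max_le h1 h2)
  have hf : ∀ i j, f i = f j ↔ ‖x i - x j‖ ≤ ρ := by
    intro i j
    constructor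
    · intro h
      have : j ∈ f j := by simp [f, hρ]
      rw [← h] at this
      simpa [f] using this
    · intro h
      ext k
      simp only [f, Finset.mem_filter, Finset.mem_univ, true_and]
      constructor
      · intro h'
        exact tri _ _ _ (by rw [norm_sub_rev]; exact h) h'
      · intro h'
        exact tri _ _ _ h h'
  have h1 : ∑ i, ∑ j, τ i * τ j * (if ‖x i - x j‖ ≤ ρ then 1 else 0) =
      ∑ k ∈ univ.image f, (∑ i, if f i = k then τ i else 0) ^ 2 := by
    rw [← sum_fib]
    refine Finset.sum_congr rfl fun i _ => Finset.sum_congr rfl fun j _ => ?_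
    by_cases h : ‖x i - x j‖ ≤ ρ
    · rw [if_pos h, if_pos ((hf i j).mpr h), mul_one]
    · rw [if_neg h, if_neg (fun h' => h ((hf i j).mp h')), mul_zero]
  rw [h1]
  by_cases hex : ∃ i, ‖c - x i‖ ≤ ρ
  · obtain ⟨i₀, hi₀⟩ := hex
    have h2 : ∀ i, ‖c - x i‖ ≤ ρ ↔ f i = f i₀ := by
      intro i
      rw [hf]
      constructor
      · intro h
        exact tri _ _ _ (by rw [norm_sub_rev]; exact h) hi₀
      · intro h
        exact tri _ _ _ hi₀ (by rw [norm_sub_rev]; exact h)
    have h3 : (∑ i, if ‖c - x i‖ ≤ ρ then τ i else 0) = ∑ i, if f i = f i₀ then τ i else 0 := by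
      refine Finset.sum_congr rfl fun i _ => ?_
      by_cases h : ‖c - x i‖ ≤ ρ
      · rw [if_pos h, if_pos ((h2 i).mp h)]
      · rw [if_neg h, if_neg (fun h' => h ((h2 i).mpr h'))]
    rw [h3]
    exact Finset.single_le_sum (f := fun k => (∑ i, if f i = k then τ i else 0) ^ 2)
      (fun k _ => sq_nonneg _) (Finset.mem_image_of_mem f (Finset.mem_univ i₀))
  · push Not at hex
    have h2 : (∑ i, if ‖c - x i‖ ≤ ρ then τ i else 0) = 0 :=
      Finset.sum_eq_zero fun i _ => if_neg (not_le.mpr (hex i))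
    rw [h2]
    simpa using Finset.sum_nonneg fun k _ => sq_nonneg _

/-- the step function of a scale -/
theorem step_mono (D : ℝ) : Monotone (fun s : ℝ => if D ≤ Real.exp s then (1 : ℝ) else 0) := by
  intro s t h
  by_cases h1 : D ≤ Real.exp s
  · have h2 : D ≤ Real.exp t := h1.trans (Real.exp_le_exp.mpr h)
    simp [h1, h2]
  · simp only [if_neg h1]
    split_ifs <;> norm_num

theorem step_int (D a b : ℝ) : IntervalIntegrable
    (fun s : ℝ => if D ≤ Real.exp s then (1 : ℝ) else 0) volume a b :=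
  (step_mono D).intervalIntegrable

theorem log_eq_int (D s₀ r : ℝ) (h0 : s₀ ≤ r) (hD : D ≤ Real.exp r) :
    Real.log (max (Real.exp s₀) D) =
      r - ∫ s in s₀..r, (if D ≤ Real.exp s then (1 : ℝ) else 0) := by
  by_cases h : D ≤ Real.exp s₀
  · rw [max_eq_left h, Real.log_exp]
    have : ∫ s in s₀..r, (if D ≤ Real.exp s then (1 : ℝ) else 0) = ∫ s in s₀..r, (1 : ℝ) := by
      apply intervalIntegral.integral_congr
      intro s hs
      rw [Set.uIcc_of_le h0] at hs
      simp only
      rw [if_pos (h.trans (Real.exp_le_exp.mpr hs.1))]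
    rw [this]
    simp
  · push Not at h
    have hDp : 0 < D := (Real.exp_pos _).trans h
    rw [max_eq_right h.le]
    have h1 : s₀ ≤ Real.log D := (Real.le_log_iff_exp_le hDp).mpr h.le
    have h2 : Real.log D ≤ r := (Real.log_le_iff_le_exp hDp).mpr hD
    have h3 : ∫ s in s₀..r, (if D ≤ Real.exp s then (1 : ℝ) else 0) =
        (∫ s in s₀..Real.log D, (if D ≤ Real.exp s then (1 : ℝ) else 0)) +
        ∫ s in Real.log D..r, (if D ≤ Real.exp s then (1 : ℝ) else 0) :=
      (intervalIntegral.integral_add_adjacent_intervals (step_int _ _ _) (step_int _ _ _)).symm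
    have h4 : ∫ s in s₀..Real.log D, (if D ≤ Real.exp s then (1 : ℝ) else 0) =
        ∫ s in s₀..Real.log D, (0 : ℝ) := by
      apply intervalIntegral.integral_congr_Ioo_of_le
      · exact h1
      · intro s hs
        simp only
        rw [if_neg]
        rw [not_le, ← Real.lt_log_iff_exp_lt hDp]
        exact hs.2
    have h5 : ∫ s in Real.log D..r, (if D ≤ Real.exp s then (1 : ℝ) else 0) =
        ∫ s in Real.log D..r, (1 : ℝ) := by
      apply intervalIntegral.integral_congr
      intro s hs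
      rw [Set.uIcc_of_le h2] at hs
      simp only
      rw [if_pos ((Real.log_le_iff_le_exp hDp).mp hs.1)]
    rw [h3, h4, h5]
    simp

theorem int_sum {ι : Type*} (t : Finset ι) (f : ι → ℝ → ℝ) (a b : ℝ)
    (h : ∀ i ∈ t, IntervalIntegrable (f i) volume a b) :
    IntervalIntegrable (fun s => ∑ i ∈ t, f i s) volume a b := by
  have h2 := IntervalIntegrable.sum t h
  rwa [show (∑ i ∈ t, f i) = fun s => ∑ i ∈ t, f i s from by ext s; simp] at h2

theorem pos : S_POS.{u} := by
  intro L _ _ ι _ x τ c s₀ x₁ x₂ r γ hτ h01 h12 h2r hx hγ hs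
  set Q : ℝ → ℝ := fun s =>
    ∑ i, ∑ j, τ i * τ j * (if ‖x i - x j‖ ≤ Real.exp s then 1 else 0) with hQ
  have hQint : ∀ a b : ℝ, IntervalIntegrable Q volume a b := by
    intro a b
    refine int_sum _ _ _ _ fun i _ => int_sum _ _ _ _ fun j _ => ?_
    exact (step_int _ a b).const_mul _
  have hQ0 : ∀ s, 0 ≤ Q s := fun s =>
    (sq_nonneg _).trans (form_ge x τ c (Real.exp s) (Real.exp_pos _).le)
  have hQ1 : ∀ s, x₁ ≤ s → s < x₂ → γ ^ 2 ≤ Q s := by
    intro s h1 h2
    refine le_trans ?_ (form_ge x τ c (Real.exp s) (Real.exp_pos _).le)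
    rw [← sq_abs (∑ i, _)]
    exact pow_le_pow_left₀ hγ (hs s h1 h2) 2
  have hkey : ∑ i, ∑ j, τ i * τ j * Real.log (max (Real.exp s₀) ‖x i - x j‖) =
      -∫ s in s₀..r, Q s := by
    have h1 : ∫ s in s₀..r, Q s = ∑ i, ∑ j, τ i * τ j *
        ∫ s in s₀..r, (if ‖x i - x j‖ ≤ Real.exp s then (1 : ℝ) else 0) := by
      simp only [hQ]
      rw [intervalIntegral.integral_finsetSum]
      · refine Finset.sum_congr rfl fun i _ => ?_
        rw [intervalIntegral.integral_finsetSum]
        · refine Finset.sum_congr rfl fun j _ => ?_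
          rw [intervalIntegral.integral_const_mul]
        · intro j _
          exact (step_int _ _ _).const_mul _
      · intro i _
        exact int_sum _ _ _ _ fun j _ => (step_int _ _ _).const_mul _
    have h2 : ∑ i, ∑ j, τ i * τ j * r = 0 := by
      have : ∑ i, ∑ j, τ i * τ j * r = (∑ i, τ i) * (∑ j, τ j) * r := by
        rw [Finset.sum_mul_sum, Finset.sum_mul]
        refine Finset.sum_congr rfl fun i _ => ?_
        rw [Finset.sum_mul]
      rw [this, hτ]; ring
    rw [h1]
    have h3 : ∀ i j, τ i * τ j * Real.log (max (Real.exp s₀) ‖x i - x j‖) = τ i * τ j * r -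
        τ i * τ j * ∫ s in s₀..r, (if ‖x i - x j‖ ≤ Real.exp s then (1 : ℝ) else 0) := by
      intro i j
      rw [log_eq_int _ _ _ (h01.trans (h12.trans h2r)) (hx i j)]
      ring
    simp_rw [h3, Finset.sum_sub_distrib]
    rw [h2]; ring
  rw [hkey]
  apply neg_le_neg
  have h4 : ∫ s in s₀..r, Q s = (∫ s in s₀..x₁, Q s) + (∫ s in x₁..x₂, Q s) +
      ∫ s in x₂..r, Q s := by
    rw [intervalIntegral.integral_add_adjacent_intervals (hQint _ _) (hQint _ _),
      intervalIntegral.integral_add_adjacent_intervals (hQint _ _) (hQint _ _)]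
  have h5 : 0 ≤ ∫ s in s₀..x₁, Q s := intervalIntegral.integral_nonneg h01 fun s _ => hQ0 s
  have h6 : 0 ≤ ∫ s in x₂..r, Q s := intervalIntegral.integral_nonneg h2r fun s _ => hQ0 s
  have h7 : γ ^ 2 * (x₂ - x₁) ≤ ∫ s in x₁..x₂, Q s := by
    have h8 : ∫ s in x₁..x₂, γ ^ 2 = γ ^ 2 * (x₂ - x₁) := by
      simp [mul_comm]
    rw [← h8]
    exact intervalIntegral.integral_mono_on_of_le_Ioo h12 intervalIntegrable_const (hQint _ _)
      fun s hs' => hQ1 s hs'.1.le hs'.2
  rw [h4]
  linarith

end

end Pool.Agent.P8H74.IU
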