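import Pool.Agent.P8H67.IU.Stm

set_option autoImplicit false

namespace Pool.Agent.P8H74.IU

open Polynomial Finset Pool.Agent.P8H67.IU

universe u

section
variable {L : Type u} [NormedField L] [IsUltrametricDist L]

theorem orb_next {f : L[X]} {x₀ : L} {R : ℝ} {y : L} (h : Orb f x₀ R y) :
    Orb f x₀ R (f.eval y) := by
  intro n
  have := h (n + 1)
  rwa [Function.iterate_succ_apply] at this

theorem exists_basis (f : L[X]) (d : ℕ) (hf : f.Monic) (hd : f.natDegree = d) (h2 : 2 ≤ d)
    (x₀ : L) (R : ℝ) (hR : 1 ≤ R) (j : ℕ) : ∃ P : L[X], P.Monic ∧ P.natDegree = j ∧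
      ∀ y, Orb f x₀ R y → ‖P.eval y‖ ≤ R ^ ((d - 1) * (Nat.log d j + 1)) := by
  induction j using Nat.strong_induction_on with
  | _ j ih =>
  rcases lt_or_ge j d with h | h
  · refine ⟨(X - C x₀) ^ j, (monic_X_sub_C x₀).pow j, ?_, ?_⟩
    · rw [natDegree_pow, natDegree_X_sub_C, mul_one]
    · intro y hy
      have h0 := hy 0
      simp only [Function.iterate_zero, id] at h0
      rw [eval_pow, eval_sub, eval_X, eval_C, norm_pow]
      calc ‖y - x₀‖ ^ j ≤ R ^ j := pow_le_pow_left₀ (norm_nonneg _) h0 _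
        _ ≤ _ := by
          apply pow_le_pow_right₀ hR
          rw [Nat.log_of_lt h]
          omega
  · have hj : 0 < j := by omega
    have hlt : j / d < j := Nat.div_lt_self hj (by omega)
    obtain ⟨P, hP, hPd, hPy⟩ := ih (j / d) hlt
    have hfd : f.natDegree ≠ 0 := by omega
    refine ⟨P.comp f * (X - C x₀) ^ (j % d), ?_, ?_, ?_⟩
    · exact (hP.comp hf hfd).mul ((monic_X_sub_C x₀).pow _)
    · rw [Monic.natDegree_mul (hP.comp hf hfd) ((monic_X_sub_C x₀).pow _), natDegree_comp, hPd,
        natDegree_pow, natDegree_X_sub_C, mul_one, hd]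
      rw [mul_comm]
      exact Nat.div_add_mod j d
    · intro y hy
      have h0 := hy 0
      simp only [Function.iterate_zero, id] at h0
      have h1 := hPy _ (orb_next hy)
      rw [eval_mul, eval_comp, eval_pow, eval_sub, eval_X, eval_C, norm_mul, norm_pow]
      have h3 : ‖y - x₀‖ ^ (j % d) ≤ R ^ (d - 1) := by
        calc ‖y - x₀‖ ^ (j % d) ≤ R ^ (j % d) := pow_le_pow_left₀ (norm_nonneg _) h0 _
          _ ≤ _ := by
            apply pow_le_pow_right₀ hR
            have := Nat.mod_lt j (show 0 < d by omega)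
            omega
      calc _ ≤ R ^ ((d - 1) * (Nat.log d (j / d) + 1)) * R ^ (d - 1) := by gcongr
        _ = R ^ ((d - 1) * (Nat.log d (j / d) + 1) + (d - 1)) := by rw [pow_add]
        _ = _ := by
          congr 1
          rw [Nat.log_of_one_lt_of_le (by omega) h]
          ring

theorem norm_det_le {n : ℕ} (M : Matrix (Fin n) (Fin n) L) (b : Fin n → ℝ)
    (hM : ∀ i j, ‖M i j‖ ≤ b j) : ‖M.det‖ ≤ ∏ j, b j := by
  rw [Matrix.det_apply]
  have hb : 0 ≤ ∏ j, b j := by
    rcases n.eq_zero_or_pos with rfl | hn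
    · simp
    · exact Finset.prod_nonneg fun j _ => (norm_nonneg (M ⟨0, hn⟩ j)).trans (hM _ _)
  apply IsUltrametricDist.norm_sum_le_of_forall_le_of_nonneg hb
  intro σ _
  have : ‖Equiv.Perm.sign σ • ∏ i, M (σ i) i‖ = ‖∏ i, M (σ i) i‖ := by
    rcases Int.units_eq_one_or (Equiv.Perm.sign σ) with h | h <;> simp [h]
  rw [this, norm_prod]
  exact Finset.prod_le_prod (fun i _ => norm_nonneg _) fun i _ => hM _ _

end

theorem sum_sym {n : ℕ} (a : Fin n → Fin n → ℝ) (hs : ∀ i j, a i j = a j i)
    (h0 : ∀ i, a i i = 0) : ∑ i, ∑ j, a i j = 2 * ∑ i, ∑ j ∈ Ioi i, a i j := by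
  have h1 : ∀ i j, a i j = (if i < j then a i j else 0) + (if j < i then a i j else 0) := by
    intro i j
    rcases lt_trichotomy i j with h | h | h
    · simp [h, h.not_gt]
    · subst h; simp [h0]
    · simp [h, h.not_gt]
  have h2 : ∑ i, ∑ j, (if j < i then a i j else 0) = ∑ i, ∑ j, (if i < j then a i j else 0) := by
    rw [Finset.sum_comm]
    exact Finset.sum_congr rfl fun i _ => Finset.sum_congr rfl fun j _ => by rw [hs j i]
  have h3 : ∀ i, ∑ j ∈ Ioi i, a i j = ∑ j, (if i < j then a i j else 0) := by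
    intro i
    rw [← Finset.sum_filter]
    congr 1
    ext j; simp
  calc ∑ i, ∑ j, a i j
      = ∑ i, ∑ j, ((if i < j then a i j else 0) + (if j < i then a i j else 0)) :=
        Finset.sum_congr rfl fun i _ => Finset.sum_congr rfl fun j _ => h1 i j
    _ = ∑ i, ∑ j, (if i < j then a i j else 0) + ∑ i, ∑ j, (if j < i then a i j else 0) := by
        simp_rw [Finset.sum_add_distrib]
    _ = 2 * ∑ i, ∑ j ∈ Ioi i, a i j := by
        rw [h2, two_mul]
        simp_rw [h3]

theorem ub : S_UB.{u} := by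
  intro L _ _ f d hf hd h2 x₀ R hR Y hY
  classical
  have hr : 0 ≤ Real.log R := Real.log_nonneg hR
  set n := Y.card with hn
  let e : Fin n ≃ Y := Y.equivFin.symm
  let v : Fin n → L := fun i => (e i : L)
  have hv : Function.Injective v := fun i j h => e.injective (Subtype.ext h)
  have hvY : ∀ i, v i ∈ Y := fun i => (e i).2
  choose P hPm hPd hPb using fun j : ℕ => exists_basis f d hf hd h2 x₀ R hR j
  have hdet := Matrix.det_eval_matrixOfPolynomials_eq_det_vandermonde v (fun j : Fin n => P j)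
    (fun j => hPd j) (fun j => hPm j)
  have hle := norm_det_le (Matrix.of (fun (i j : Fin n) => (P j).eval (v i)))
    (fun j => R ^ ((d - 1) * (Nat.log d j + 1))) (fun i j => hPb j _ (hY _ (hvY i)))
  rw [← hdet] at hle
  have hne : (Matrix.vandermonde v).det ≠ 0 := Matrix.det_vandermonde_ne_zero_iff.mpr hv
  have hlog := Real.log_le_log (norm_pos_iff.mpr hne) hle
  have hEn : En ld Y = 2 * Real.log ‖(Matrix.vandermonde v).det‖ := by
    have h1 : En ld Y = ∑ i, ∑ j, ld (v i) (v j) := by
      unfold En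
      rw [← Finset.sum_coe_sort Y (fun x => ∑ y ∈ Y, ld x y)]
      rw [← Equiv.sum_comp e (fun x : Y => ∑ y ∈ Y, ld (x : L) y)]
      refine Finset.sum_congr rfl fun i _ => ?_
      rw [← Finset.sum_coe_sort Y (fun y => ld (e i : L) y)]
      rw [← Equiv.sum_comp e (fun y : Y => ld (e i : L) y)]
    rw [h1, sum_sym _ (fun i j => by unfold ld; rw [norm_sub_rev]) (fun i => by simp [ld])]
    rw [Matrix.det_vandermonde, norm_prod, Real.log_prod (fun i _ => ?_)]
    · congr 1
      refine Finset.sum_congr rfl fun i _ => ?_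
      rw [norm_prod, Real.log_prod (fun j hj => ?_)]
      · refine Finset.sum_congr rfl fun j _ => ?_
        unfold ld
        rw [norm_sub_rev]
      · rw [Finset.mem_Ioi] at hj
        exact (norm_pos_iff.mpr (sub_ne_zero.mpr fun h => hj.ne' (hv h))).ne'
    · refine (norm_pos_iff.mpr (Finset.prod_ne_zero_iff.mpr fun j hj => ?_)).ne'
      rw [Finset.mem_Ioi] at hj
      exact sub_ne_zero.mpr fun h => hj.ne' (hv h)
  have hRpos : 0 < R := by linarith
  have hlog2 : Real.log (∏ j : Fin n, R ^ ((d - 1) * (Nat.log d j + 1))) ≤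
      n * (d * ((Nat.log d n : ℝ) + 1) * Real.log R) := by
    rw [Real.log_prod (fun j _ => (pow_pos hRpos _).ne')]
    calc _ ≤ ∑ j : Fin n, (d * ((Nat.log d n : ℝ) + 1) * Real.log R) := by
          refine Finset.sum_le_sum fun j _ => ?_
          rw [Real.log_pow]
          refine mul_le_mul_of_nonneg_right ?_ hr
          push_cast
          have h3 : ((d - 1 : ℕ) : ℝ) ≤ d := by exact_mod_cast Nat.sub_le d 1
          have h4 : ((Nat.log d j : ℕ) : ℝ) ≤ (Nat.log d n : ℕ) := by
            exact_mod_cast Nat.log_mono_right j.2.le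
          have h5 : (0 : ℝ) ≤ (Nat.log d j : ℕ) := by positivity
          nlinarith [mul_nonneg (Nat.cast_nonneg (α := ℝ) d) h5,
            mul_le_mul h3 (add_le_add_left h4 1) (by positivity) (by positivity)]
      _ = _ := by simp
  rw [hEn]
  calc 2 * Real.log ‖(Matrix.vandermonde v).det‖
      ≤ 2 * (n * (d * ((Nat.log d n : ℝ) + 1) * Real.log R)) := by linarith
    _ = _ := by ring

end Pool.Agent.P8H74.IU
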